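import Pool.Agent.W662.SK.StmtsB

/-! # Traces vanish on the ideal -/

set_option autoImplicit false

open scoped InnerProductSpace ENNReal
open Filter Topology

namespace Pool.Agent.W318.SK

open Pool.Agent.W662.SK

section
variable {Γ K : Type} [Group Γ] [NormedAddCommGroup K] [InnerProductSpace ℂ K]

theorem Gop_mul (x y x' y' : K) (g g' : Γ) :
    Gop x y g * Gop x' y' g' = ⟪y, x'⟫_ℂ • Gop x y' (g * g') := by
  refine ContinuousLinearMap.ext fun f => l2_ext fun h => ?_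
  change Gop x y g (Gop x' y' g' f) h = ⟪y, x'⟫_ℂ • (Gop x y' (g * g') f h)
  rw [Gop_apply, Gop_apply, Gop_apply, inner_smul_right, smul_smul, mul_inv_rev, mul_assoc g'⁻¹,
    mul_comm]

theorem norm_sum_Gop (f : ℕ → K) (hf : Orthonormal ℂ f) (g : Γ) (N : ℕ) :
    ‖∑ i ∈ Finset.range N, Gop (f i) (f i) g‖ ≤ 1 := by
  have h1 : ∀ M : ℕ, ∑ i ∈ Finset.range M, Gop (f i) (f i) g =
      (lft Γ (∑ i ∈ Finset.range M, InnerProductSpace.rankOne ℂ (f i) (f i))).comp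
        (cl (Lam K g)) := by
    intro M
    induction M with
    | zero =>
      refine ContinuousLinearMap.ext fun u => l2_ext fun h => ?_
      simp
    | succ M ih =>
      rw [Finset.sum_range_succ, Finset.sum_range_succ, ih, lft_add, ContinuousLinearMap.add_comp]
      rfl
  rw [h1]
  refine (ContinuousLinearMap.opNorm_comp_le _ _).trans ?_
  have h2 : ‖∑ i ∈ Finset.range N, InnerProductSpace.rankOne ℂ (f i) (f i)‖ ≤ 1 := by
    refine ContinuousLinearMap.opNorm_le_bound _ zero_le_one fun v => ?_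
    rw [one_mul, sum_apply]
    simp only [InnerProductSpace.rankOne_apply]
    have h3 := hf.inner_sum (fun i => ⟪f i, v⟫_ℂ) (fun i => ⟪f i, v⟫_ℂ) (Finset.range N)
    have h4 : (‖∑ i ∈ Finset.range N, ⟪f i, v⟫_ℂ • f i‖ : ℝ) ^ 2 =
        ∑ i ∈ Finset.range N, ‖⟪f i, v⟫_ℂ‖ ^ 2 := by
      rw [← inner_self_eq_norm_sq (𝕜 := ℂ), h3, map_sum]
      refine Finset.sum_congr rfl fun i _ => ?_
      rw [RCLike.conj_mul]
      norm_cast
    have h6 := hf.sum_inner_products_le (s := Finset.range N) v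
    rw [← h4] at h6
    exact (sq_le_sq₀ (norm_nonneg _) (norm_nonneg _)).1 h6
  calc _ ≤ (1 : ℝ) * 1 := mul_le_mul ((norm_lft_le _).trans h2) (norm_cl_le _) (norm_nonneg _)
        zero_le_one
    _ = 1 := one_mul 1

end

theorem b11 (_h1 : S_B1) : S_B11 := by
  intro Γ K _ _ _ _ π f hf A hA τ hτ hcomm x hx
  -- the ideal is contained in `A`
  have hJA : ∀ j ∈ Jd Γ K, j ∈ A := by
    intro j hj
    have : j ∈ (A : Set (L2 Γ K →L[ℂ] L2 Γ K)) := by
      rw [hA]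
      refine ⟨j, hj, 0, Submodule.zero_mem _, ?_⟩
      have : sg π (0 : L2 Γ K →L[ℂ] L2 Γ K) = 0 := by
        unfold sg
        rw [ContinuousLinearMap.zero_comp, ContinuousLinearMap.comp_zero]
      rw [this, add_zero]
    exact this
  have hG : ∀ (a b : K) (g : Γ), Gop a b g ∈ A := fun a b g => hJA _ (Gop_mem a b g)
  -- the trace of the generators
  have hgen : ∀ (a b : K) (g : Γ), τ ⟨Gop a b g, hG a b g⟩ = 0 := by
    intro a b g
    have hstep : ∀ i : ℕ, τ ⟨Gop a b g, hG a b g⟩ =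
        ⟪b, a⟫_ℂ * τ ⟨Gop (f i) (f i) g, hG (f i) (f i) g⟩ := by
      intro i
      have e1 : (⟨Gop a (f i) 1, hG _ _ _⟩ : A) * ⟨Gop (f i) b g, hG _ _ _⟩ =
          ⟨Gop a b g, hG a b g⟩ := by
        apply Subtype.ext
        change Gop a (f i) 1 * Gop (f i) b g = Gop a b g
        rw [Gop_mul, one_mul]
        have : ⟪f i, f i⟫_ℂ = 1 := by
          rw [inner_self_eq_norm_sq_to_K, hf.1 i]
          simp
        rw [this, one_smul]
      have e2 : (⟨Gop (f i) b g, hG _ _ _⟩ : A) * ⟨Gop a (f i) 1, hG _ _ _⟩ =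
          ⟪b, a⟫_ℂ • ⟨Gop (f i) (f i) g, hG (f i) (f i) g⟩ := by
        apply Subtype.ext
        change Gop (f i) b g * Gop a (f i) 1 = ⟪b, a⟫_ℂ • Gop (f i) (f i) g
        rw [Gop_mul, mul_one]
      have e3 := hcomm ⟨Gop a (f i) 1, hG _ _ _⟩ ⟨Gop (f i) b g, hG _ _ _⟩
      rw [e1, e2, map_smul, smul_eq_mul] at e3
      exact e3
    have hN : ∀ N : ℕ, (N : ℝ) * ‖τ ⟨Gop a b g, hG a b g⟩‖ ≤ ‖⟪b, a⟫_ℂ‖ := by
      intro N
      have h2 : (N : ℂ) * τ ⟨Gop a b g, hG a b g⟩ = ⟪b, a⟫_ℂ *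
          τ (∑ i ∈ Finset.range N, ⟨Gop (f i) (f i) g, hG (f i) (f i) g⟩) := by
        rw [map_sum, Finset.mul_sum, ← Finset.sum_congr rfl (fun i _ => hstep i),
          Finset.sum_const, Finset.card_range, nsmul_eq_mul]
      have h3 : ‖τ (∑ i ∈ Finset.range N, ⟨Gop (f i) (f i) g, hG (f i) (f i) g⟩)‖ ≤ 1 := by
        refine (hτ _).trans ?_
        have h4 : ‖(∑ i ∈ Finset.range N, (⟨Gop (f i) (f i) g, hG (f i) (f i) g⟩ : A))‖ =
            ‖∑ i ∈ Finset.range N, Gop (f i) (f i) g‖ := by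
          have h5 : ∀ M : ℕ, ((∑ i ∈ Finset.range M,
              (⟨Gop (f i) (f i) g, hG (f i) (f i) g⟩ : A) : A) : L2 Γ K →L[ℂ] L2 Γ K) =
              ∑ i ∈ Finset.range M, Gop (f i) (f i) g := by
            intro M
            induction M with
            | zero => simp
            | succ M ih =>
              rw [Finset.sum_range_succ, Finset.sum_range_succ, ← ih]
              rfl
          rw [← h5 N]
          rfl
        rw [h4]
        exact norm_sum_Gop f hf g N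
      have h4 : (N : ℝ) * ‖τ ⟨Gop a b g, hG a b g⟩‖ = ‖(N : ℂ) * τ ⟨Gop a b g, hG a b g⟩‖ := by
        rw [norm_mul]
        simp
      rw [h4, h2, norm_mul]
      exact mul_le_of_le_one_right (norm_nonneg _) h3
    by_contra hne
    have hpos : 0 < ‖τ ⟨Gop a b g, hG a b g⟩‖ := norm_pos_iff.2 hne
    obtain ⟨N, hN'⟩ := exists_nat_gt (‖⟪b, a⟫_ℂ‖ / ‖τ ⟨Gop a b g, hG a b g⟩‖)
    rw [div_lt_iff₀ hpos] at hN'
    exact absurd (hN N) (not_le.2 hN')
  -- the span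
  have hspan : ∀ j ∈ Submodule.span ℂ {T | ∃ (x y : K) (g : Γ), T = Gop x y g},
      ∃ h : j ∈ A, τ ⟨j, h⟩ = 0 := by
    intro j hj
    induction hj using Submodule.span_induction with
    | mem y hy =>
      obtain ⟨a, b, g, rfl⟩ := hy
      exact ⟨hG a b g, hgen a b g⟩
    | zero =>
      refine ⟨A.zero_mem, ?_⟩
      exact τ.map_zero
    | add u v _ _ hu hv =>
      obtain ⟨hu1, hu2⟩ := hu
      obtain ⟨hv1, hv2⟩ := hv
      refine ⟨A.add_mem hu1 hv1, ?_⟩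
      have h3 := τ.map_add ⟨u, hu1⟩ ⟨v, hv1⟩
      rw [hu2, hv2, add_zero] at h3
      exact h3
    | smul c u _ hu =>
      obtain ⟨hu1, hu2⟩ := hu
      refine ⟨SMulMemClass.smul_mem c hu1, ?_⟩
      have h3 := τ.map_smul c ⟨u, hu1⟩
      rw [hu2, smul_zero] at h3
      exact h3
  -- approximation
  by_contra hne
  have hpos : 0 < ‖τ x‖ := norm_pos_iff.2 hne
  have hx' : (x : L2 Γ K →L[ℂ] L2 Γ K) ∈
      closure ((Submodule.span ℂ {T | ∃ (x y : K) (g : Γ), T = Gop x y g} :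
        Submodule ℂ (L2 Γ K →L[ℂ] L2 Γ K)) : Set (L2 Γ K →L[ℂ] L2 Γ K)) := by
    rw [← Submodule.topologicalClosure_coe]
    exact hx
  obtain ⟨j, hj, hd⟩ := Metric.mem_closure_iff.1 hx' ‖τ x‖ hpos
  obtain ⟨hjA, hjτ⟩ := hspan j hj
  have h2 : τ x = τ (x - ⟨j, hjA⟩) := by
    rw [map_sub, hjτ, sub_zero]
  have h3 : ‖τ x‖ ≤ ‖x - ⟨j, hjA⟩‖ := by
    rw [h2]
    exact hτ _
  have h4 : ‖x - ⟨j, hjA⟩‖ = dist (x : L2 Γ K →L[ℂ] L2 Γ K) j := by
    rw [dist_eq_norm]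
    rfl
  rw [h4] at h3
  exact absurd hd (not_lt.2 h3)

end Pool.Agent.W318.SK
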